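import Pool.Agent.helper17.HH.SpecB

open scoped Pointwise
open MeasureTheory Set

set_option autoImplicit false

namespace Pool.Agent.HH

noncomputable section

lemma BFI_gB (C Q y : ℝ) (hC : 0 < C) (hQ : 0 < Q) (hy : 0 < y) :
    gB (1 / y ^ 2 / C) (Q / y / C) (C * (Q * y ^ 2)) = 1 / (360 ^ 2 * 102400 ^ 2 * C ^ 26 * y ^ 46) := by
  unfold gB vB muB
  field_simp

lemma BFI_kB (C Q y : ℝ) (hC : 0 < C) (hQ : 0 < Q) (hy : 0 < y) :
    kB (1 / y ^ 2 / C) (Q / y / C) (C * (Q * y ^ 2)) = 1800 * 102400 ^ 8 * 360 ^ 5 * C ^ 99 * Q * y ^ 175 := by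
  unfold kB
  rw [BFI_gB C Q y hC hQ hy]
  unfold dB vB muB
  field_simp
  norm_num

lemma BFI_om (w X κ : ℝ) (hw : |w| ≤ 1 / 16) (hX : |X| ≤ 3) (h1 : 1 / 2 ≤ κ) (h2 : κ ≤ 2) :
    0 < IR.om w X ∧ 1 / 4 ≤ κ * IR.om w X ∧ κ * IR.om w X ≤ 8 := by
  have h : |w * X| ≤ 3 / 16 := by
    rw [abs_mul]
    have := mul_le_mul hw hX (abs_nonneg X) (by norm_num)
    linarith
  have h' := abs_le.mp h
  have hp : 0 < (1 - w * X) := by linarith
  have hsq : (13 / 16 : ℝ) ^ 2 ≤ (1 - w * X) ^ 2 := by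
    apply pow_le_pow_left₀ (by norm_num); linarith
  have hsq2 : (1 - w * X) ^ 2 ≤ (19 / 16 : ℝ) ^ 2 := by
    apply pow_le_pow_left₀ hp.le; linarith
  have hpp : 0 < (1 - w * X) ^ 2 := by positivity
  have ho : 0 < IR.om w X := by unfold IR.om; positivity
  have hlo : 1 / 2 ≤ IR.om w X := by
    unfold IR.om
    rw [div_le_div_iff₀ (by norm_num) hpp]
    nlinarith
  have hhi : IR.om w X ≤ 2 := by
    unfold IR.om
    rw [div_le_iff₀ hpp]
    nlinarith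
  refine ⟨ho, ?_, ?_⟩
  · nlinarith
  · nlinarith

lemma BFI_five (s : ℝ) (hs : 1 / 4 ≤ s) (A : Finset ℤ) (k : ℤ) :
    (A.filter fun a : ℤ => ⌊s * a⌋ = k).card ≤ 5 := by
  have hs0 : 0 < s := by linarith
  have hsub : (A.filter fun a : ℤ => ⌊s * a⌋ = k) ⊆ Finset.Icc ⌈(k : ℝ) / s⌉ (⌈(k : ℝ) / s⌉ + 4) := by
    intro a ha
    rw [Finset.mem_filter] at ha
    obtain ⟨_, ha⟩ := ha
    rw [Int.floor_eq_iff] at ha
    rw [Finset.mem_Icc]
    constructor
    · rw [Int.ceil_le, div_le_iff₀ hs0]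
      linarith [ha.1]
    · have h1 : (a : ℝ) < ((k : ℝ) + 1) / s := by
        rw [lt_div_iff₀ hs0]
        linarith [ha.2]
      have h2 : ((k : ℝ) + 1) / s ≤ k / s + 4 := by
        rw [add_div]
        have : 1 / s ≤ 4 := by
          rw [div_le_iff₀ hs0]; linarith
        linarith
      have h3 : (k : ℝ) / s ≤ ⌈(k : ℝ) / s⌉ := Int.le_ceil _
      have h4 : (a : ℝ) < ((⌈(k : ℝ) / s⌉ + 4 : ℤ) : ℝ) := by
        push_cast
        linarith
      exact (Int.cast_lt.mp h4).le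
  calc _ ≤ _ := Finset.card_le_card hsub
    _ ≤ 5 := by
        rw [Int.card_Icc]
        have : (⌈(k : ℝ) / s⌉ + 4 + 1 - ⌈(k : ℝ) / s⌉) = 5 := by ring
        rw [this]
        norm_num

lemma BFI_cov (L : ℕ) (hL : 0 < L) (A : Finset ℤ) :
    cov (1 / (L : ℝ)) (A.image (fun a : ℤ => (a : ℝ) / L)) = A.card := by
  unfold cov cel
  rw [Finset.image_image]
  have hL' : (L : ℝ) ≠ 0 := by positivity
  have : ((fun x : ℝ => ⌊x / (1 / (L : ℝ))⌋) ∘ (fun a : ℤ => (a : ℝ) / L)) = id := by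
    funext a
    simp only [Function.comp, id]
    have : (a : ℝ) / L / (1 / (L : ℝ)) = a := by field_simp
    rw [this, Int.floor_intCast]
  rw [this, Finset.image_id]

lemma BFI_q (κ κ0 o o' o0 o0' : ℝ) (h1 : 0 < κ) (h2 : 0 < κ0) (h3 : 0 < o) (h4 : 0 < o') (h5 : 0 < o0) (h6 : 0 < o0') :
    κ0 * o0' / (κ * o') * (κ * o / (κ0 * o0)) = (o / o') / (o0 / o0') := by
  field_simp

theorem BFI_proof (h1 : BOU_stmt) (h2 : BMU_stmt) (h3 : BQW_stmt) (h4 : BMF_stmt) (h5 : BGC_stmt) (h6 : BWC_stmt) (h7 : RNG_stmt) (h8 : RCV_stmt) : BFI_stmt := by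
  intro C hC
  obtain ⟨C1, hC1, hMU⟩ := h2
  obtain ⟨C3, hC3, hQW⟩ := h3
  obtain ⟨C2, hC2, hMF⟩ := h4
  obtain ⟨mG, hG⟩ := h5 C hC
  obtain ⟨mW, hWC⟩ := h6 C C2 hC hC2
  obtain ⟨N0, hN0, hNG⟩ := h7
  have hC0 : 0 < C := by linarith
  have hC10 : 0 < C1 := by linarith
  have hC20 : 0 < C2 := by linarith
  set B1 : ℝ := 144 * C ^ 2 with hB1
  set B2 : ℝ := C1 * (1800 * 102400 ^ 8 * 360 ^ 5) ^ 2 * 72 ^ 2 * C ^ 204 with hB2
  set B3 : ℝ := 72 * C ^ 4 with hB3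
  set B4 : ℝ := 288 * 360 ^ 4 * 102400 ^ 4 * C2 * C ^ 55 with hB4
  have hB1p : 0 < B1 := by rw [hB1]; positivity
  have hB2p : 0 < B2 := by rw [hB2]; positivity
  have hB3p : 0 < B3 := by rw [hB3]; positivity
  have hB4p : 0 < B4 := by rw [hB4]; positivity
  refine ⟨max (max mG mW) ⌈100 * (N0 + B1 + B2 + B3 + B4 + 1)⌉₊, ?_⟩
  intro m L S W X V w κ A B R hm hD
  have hmG : mG ≤ m := le_trans (le_trans (le_max_left _ _) (le_max_left _ _)) hm
  have hmW : mW ≤ m := le_trans (le_trans (le_max_right _ _) (le_max_left _ _)) hm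
  have hmB : 100 * (N0 + B1 + B2 + B3 + B4 + 1) ≤ (m : ℝ) := le_trans (Nat.le_ceil _) (by exact_mod_cast le_trans (le_max_right _ _) hm)
  by_contra hlt
  push Not at hlt
  set Q : ℝ := Real.exp (2000 * m) with hQ
  set y : ℝ := Real.exp (m / 100) with hy
  have hQ0 : 0 < Q := Real.exp_pos _
  have hy0 : 0 < y := Real.exp_pos _
  have hyB : N0 + B1 + B2 + B3 + B4 + 1 ≤ y := by
    have := Real.add_one_le_exp ((m : ℝ) / 100)
    rw [← hy] at this
    linarith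
  have hy1 : 1 ≤ y := by linarith
  have hyk : ∀ k : ℕ, k ≠ 0 → y ≤ y ^ k := fun k hk => le_self_pow₀ hy1 hk
  have yp : ∀ k : ℕ, y ^ k = Real.exp (k * (m / 100)) := fun k => (Real.exp_nat_mul _ _).symm
  have e1 : Real.exp ((1 / 2 - 1 / 400000) * (4000 * m)) = Q / y := by
    rw [hQ, hy, ← Real.exp_sub]; congr 1; ring
  have e2 : Real.exp ((1 / 2 + 2 / 400000) * (4000 * m)) = Q * y ^ 2 := by
    rw [hQ, yp, ← Real.exp_add]; congr 1; push_cast; ring
  have e3 : Real.exp (-(4000 * m) / 400000) = 1 / y := by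
    rw [hy, one_div, ← Real.exp_neg]; congr 1; ring
  have e4 : Real.exp (-2 * (4000 * m) / 400000) = 1 / y ^ 2 := by
    rw [yp, one_div, ← Real.exp_neg]; congr 1; push_cast; ring
  have e5 : Real.exp (-(m : ℝ)) = 1 / y ^ 100 := by
    rw [yp, one_div, ← Real.exp_neg]; congr 1; push_cast; ring
  have e6 : Real.exp (4000 * m) = Q ^ 2 := by
    rw [hQ, ← Real.exp_nat_mul]; congr 1; push_cast; ring
  have e7 : Real.exp ((1 / 2 - 1 / 4000) * (4000 * m)) = Q / y ^ 100 := by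
    rw [hQ, yp, ← Real.exp_sub]; congr 1; push_cast; ring
  have hl1 := hD.l1
  have hl2 := hD.l2
  rw [e6] at hl1 hl2
  have hL0 : (0 : ℝ) < L := lt_of_lt_of_le (by positivity) hl1
  have hLn : 0 < L := by exact_mod_cast hL0
  rw [e7] at hlt
  -- BOU
  have hα0 : 0 < 1 / y ^ 2 / C := by positivity
  have hα1 : 1 / y ^ 2 / C ≤ 1 := by
    rw [div_div, div_le_one (by positivity)]
    have : 1 ≤ y ^ 2 := one_le_pow₀ hy1
    nlinarith
  have hθ0 : 0 < 1 / y := by positivity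
  have hθ1 : 1 / y ≤ 1 := by
    rw [div_le_one hy0]; exact hy1
  have ha0 : 0 < Q / y / C := by positivity
  have hM1 : C * Real.exp ((1 / 2 + eta) * (7999 * m)) ≤ (1 / y ^ 2 / C) ^ 2 * (1 / y) ^ 2 / 144 * (C * Real.exp ((1 / 2 + eta) * (2 * (4000 * m)))) := by
    have hs : Real.exp ((1 / 2 + eta) * (2 * (4000 * m))) = Real.exp ((1 / 2 + eta) * (7999 * m)) * Real.exp ((1 / 2 + eta) * m) := by
      rw [← Real.exp_add]; congr 1; ring
    have hs2 : y ^ 50 ≤ Real.exp ((1 / 2 + eta) * m) := by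
      rw [yp]
      apply Real.exp_le_exp.mpr
      have : 0 ≤ eta * m := by unfold eta; positivity
      push_cast
      linarith
    have hs3 : 144 * C ^ 2 * y ^ 6 ≤ y ^ 50 := by
      have h44 : B1 ≤ y ^ 44 := le_trans (by linarith) (hyk 44 (by norm_num))
      calc 144 * C ^ 2 * y ^ 6 ≤ y ^ 44 * y ^ 6 := by
            apply mul_le_mul_of_nonneg_right _ (by positivity)
            exact h44
        _ = y ^ 50 := by ring
    have hs4 : 1 ≤ (1 / y ^ 2 / C) ^ 2 * (1 / y) ^ 2 / 144 * Real.exp ((1 / 2 + eta) * m) := by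
      have : (1 / y ^ 2 / C) ^ 2 * (1 / y) ^ 2 / 144 = 1 / (144 * C ^ 2 * y ^ 6) := by
        field_simp
      rw [this, one_div, ← div_eq_inv_mul, le_div_iff₀ (by positivity), one_mul]
      linarith
    rw [hs]
    have hp : 0 < C * Real.exp ((1 / 2 + eta) * (7999 * m)) := by positivity
    calc C * Real.exp ((1 / 2 + eta) * (7999 * m)) = C * Real.exp ((1 / 2 + eta) * (7999 * m)) * 1 := by ring
      _ ≤ C * Real.exp ((1 / 2 + eta) * (7999 * m)) * ((1 / y ^ 2 / C) ^ 2 * (1 / y) ^ 2 / 144 * Real.exp ((1 / 2 + eta) * m)) := mul_le_mul_of_nonneg_left hs4 hp.le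
      _ = _ := by ring
  have hwabs : ∀ k ∈ W, |w k| ≤ 1 / 16 := by
    intro k hk
    have ha := hD.w0 k hk
    obtain ⟨hb1, hb2, _, _⟩ := hD.w2 k hk
    have ha' : 16 * (|(k : ℝ)| + 1) ≤ L := by exact_mod_cast ha
    have hk1 := le_abs_self (k : ℝ)
    have hk2 := neg_abs_le (k : ℝ)
    rw [abs_le]
    constructor
    · refine le_trans ?_ hb1
      rw [le_div_iff₀ hL0]
      linarith
    · refine le_trans hb2 ?_
      rw [div_le_iff₀ hL0]
      linarith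
  have hWne : W.Nonempty := by
    rw [← Finset.card_pos]
    have : (0 : ℝ) < W.card := lt_trans (by positivity) hlt
    exact_mod_cast this
  obtain ⟨I, hI, I', hI', hϑ, w0, hw0, W2, hW2, hcard, A', hA', hdiff⟩ := h1 (1 / y ^ 2 / C) (1 / y) (Q / y / C) (C * (Q * y ^ 2)) (C * Real.exp ((1 / 2 + eta) * (2 * (4000 * m)))) (C * Real.exp ((1 / 2 + eta) * (7999 * m))) (Real.exp (-m)) S W X V A B R (fun k I a => ⌊κ k * IR.om (w k) (X I) * a⌋)
    hα0 hα1 hθ0 hθ1 ha0 (by positivity) hD.s0 hD.s1 hM1 (by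
      intro I hI
      have := hD.v0 I hI
      rwa [e2] at this) hWne (by
      intro k hk
      have hak := hD.a0 k hk
      rw [e1] at hak
      obtain ⟨hBS, hBc⟩ := hD.b0 k hk
      rw [e3] at hBc
      refine ⟨by rw [div_le_iff₀ hC0]; linarith, hBS, hBc, ?_⟩
      intro I hI
      obtain ⟨hr1, hr2, hr3⟩ := hD.r0 k hk I hI
      rw [e4] at hr2
      refine ⟨hr1, ?_, ?_, hr3⟩
      · rw [div_mul_eq_mul_div, div_le_iff₀ hC0]
        linarith
      · intro j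
        obtain ⟨_, _, hκ1, hκ2⟩ := hD.w2 k hk
        exact BFI_five _ (BFI_om (w k) (X I) (κ k) (hwabs k hk) (hD.x0 I (hBS hI)) hκ1 hκ2).2.1 (A k) j)
  rw [BFI_gB C Q y hC0 hQ0 hy0] at hcard
  rw [BFI_kB C Q y hC0 hQ0 hy0] at hdiff
  have hXI := hD.x0 I hI
  have hXI' := hD.x0 I' hI'
  -- lower bound for the sets
  have hAlow : ∀ k ∈ insert w0 W2, Q / (72 * C ^ 3 * y ^ 5) ≤ (A' k).card := by
    intro k hk
    have hkW : k ∈ W := by
      rcases Finset.mem_insert.mp hk with h | h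
      · rw [h]; exact hw0
      · exact hW2 h
    obtain ⟨_, _, _, hc⟩ := hA' k hk
    have hak := hD.a0 k hkW
    rw [e1] at hak
    have hak' : Q / y / C ≤ (A k).card := by rw [div_le_iff₀ hC0]; linarith
    calc Q / (72 * C ^ 3 * y ^ 5) = (1 / y ^ 2 / C) ^ 2 / 72 * (Q / y / C) := by
          field_simp
      _ ≤ (1 / y ^ 2 / C) ^ 2 / 72 * (A k).card := mul_le_mul_of_nonneg_left hak' (by positivity)
      _ ≤ _ := hc
  have hw0i : w0 ∈ insert w0 W2 := Finset.mem_insert_self _ _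
  -- powers of L
  have hLpow : y ^ 400 ≤ (L : ℝ) ^ (1 / 1000 : ℝ) := by
    have : y ^ 400 = (Q ^ 2) ^ (1 / 1000 : ℝ) := by
      rw [← e6, yp, ← Real.exp_mul]; congr 1; push_cast; ring
    rw [this]
    exact Real.rpow_le_rpow (by positivity) hl1 (by norm_num)
  have hLpow2 : (L : ℝ) ^ (1 / 2 - 1 / 1000 : ℝ) ≤ C * (Q / y ^ 400) := by
    have ha : (Q ^ 2) ^ (1 / 2 - 1 / 1000 : ℝ) = Q / y ^ 400 := by
      rw [← e6, yp, ← Real.exp_mul, hQ, ← Real.exp_sub]; congr 1; push_cast; ring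
    calc (L : ℝ) ^ (1 / 2 - 1 / 1000 : ℝ) ≤ (C * Q ^ 2) ^ (1 / 2 - 1 / 1000 : ℝ) :=
          Real.rpow_le_rpow hL0.le hl2 (by norm_num)
      _ = C ^ (1 / 2 - 1 / 1000 : ℝ) * (Q / y ^ 400) := by
          rw [Real.mul_rpow hC0.le (by positivity), ha]
      _ ≤ C * (Q / y ^ 400) := by
          apply mul_le_mul_of_nonneg_right _ (by positivity)
          calc C ^ (1 / 2 - 1 / 1000 : ℝ) ≤ C ^ (1 : ℝ) := Real.rpow_le_rpow_of_exponent_le hC (by norm_num)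
            _ = C := Real.rpow_one C
  -- q
  have hom : ∀ k ∈ W, 0 < IR.om (w k) (X I) ∧ 0 < IR.om (w k) (X I') ∧ 0 < κ k ∧ 1 / 4 ≤ κ k * IR.om (w k) (X I) ∧ κ k * IR.om (w k) (X I) ≤ 8 ∧ 1 / 4 ≤ κ k * IR.om (w k) (X I') ∧ κ k * IR.om (w k) (X I') ≤ 8 := by
    intro k hk
    obtain ⟨_, _, hκ1, hκ2⟩ := hD.w2 k hk
    obtain ⟨a1, a2, a3⟩ := BFI_om (w k) (X I) (κ k) (hwabs k hk) hXI hκ1 hκ2
    obtain ⟨b1, b2, b3⟩ := BFI_om (w k) (X I') (κ k) (hwabs k hk) hXI' hκ1 hκ2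
    exact ⟨a1, b1, by linarith, a2, a3, b2, b3⟩
  have hq : ∀ k ∈ W, 2 / 5 ≤ qq (X I) (X I') (w k) ∧ qq (X I) (X I') (w k) ≤ 5 / 2 ∧ IR.om (w k) (X I) / IR.om (w k) (X I') = qq (X I) (X I') (w k) := by
    intro k hk
    obtain ⟨_, _, a, b, c⟩ := hQW (X I) (X I') (w k) (w k) hXI hXI' (hwabs k hk) (hwabs k hk)
    exact ⟨a, b, c⟩
  obtain ⟨hq01, hq02, hq03⟩ := hq w0 hw0
  set q0 : ℝ := qq (X I) (X I') (w w0) with hq0
  have hq0p : 0 < q0 := by linarith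
  have hϑ0 : 0 < Real.exp (-(m : ℝ)) := Real.exp_pos _
  have hϑ1 : Real.exp (-(m : ℝ)) ≤ 1 := by
    rw [Real.exp_le_one_iff]
    have : (0 : ℝ) ≤ m := Nat.cast_nonneg m
    linarith
  obtain ⟨hF1, hF2⟩ := hMF L (Real.exp (-(m : ℝ))) (X I) (X I') q0 W2 w hLn hXI hXI' hϑ0 hϑ1 hϑ hq01 hq02 (fun k hk => ⟨(hD.w2 k (hW2 hk)).1, (hD.w2 k (hW2 hk)).2.1, hwabs k (hW2 hk)⟩)
  set M : Finset ℝ := W2.image (fun k => qq (X I) (X I') (w k) / q0) with hM
  set G : Finset ℝ := (A' w0).image (fun a : ℤ => (a : ℝ) / L) with hGdef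
  obtain ⟨hG1, hG2⟩ := hG m L (A w0) (A' w0) hmG (by rw [e6]; exact hl1) (by rw [e6]; exact hl2) (hD.a1 w0 hw0) (hA' w0 hw0i).2.2.1
  have hcovG : cov (1 / (L : ℝ)) G = (A' w0).card := BFI_cov L hLn _
  have hNL : N0 ≤ L := by
    have hQ1 : y ≤ Q := by
      rw [hy, hQ]
      apply Real.exp_le_exp.mpr
      have : (0 : ℝ) ≤ m := Nat.cast_nonneg m
      linarith
    have : Q ≤ Q ^ 2 := le_self_pow₀ (by linarith) (by norm_num)
    linarith
  have hlow := hAlow w0 hw0i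
  have hRes := hNG (L : ℝ) G M hNL hG1 hG2 (by
      rw [hcovG]
      refine le_trans hLpow2 (le_trans ?_ hlow)
      have h395 : B3 ≤ y ^ 395 := le_trans (by linarith) (hyk 395 (by norm_num))
      rw [← mul_div_assoc, div_le_div_iff₀ (by positivity) (by positivity)]
      calc C * Q * (72 * C ^ 3 * y ^ 5) = Q * y ^ 5 * B3 := by rw [hB3]; ring
        _ ≤ Q * y ^ 5 * y ^ 395 := mul_le_mul_of_nonneg_left h395 (by positivity)
        _ = Q * y ^ 400 := by ring) (by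
      intro x hx
      rw [hM, Finset.mem_image] at hx
      obtain ⟨k, hk, rfl⟩ := hx
      obtain ⟨a, b, _⟩ := hq k (hW2 hk)
      constructor
      · rw [div_le_div_iff₀ (by norm_num) hq0p]
        linarith
      · rw [div_le_iff₀ hq0p]
        linarith) (by
      intro s x0 hs1 hs2
      obtain ⟨k0, hk0⟩ := hF2 s x0 hs1
      refine le_trans hk0 ?_
      refine le_trans ?_ (hWC m L W hmW (by rw [e6]; exact hl1) (by rw [e6]; exact hl2) hD.w0 hD.w1 s k0 hs1 hs2)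
      have : (W2.filter fun k : ℤ => |(k : ℝ) - k0| ≤ C2 * s * L / Real.exp (-(m : ℝ))) ⊆ (W.filter fun k : ℤ => |(k : ℝ) - k0| ≤ C2 * s * L / Real.exp (-(m : ℝ))) :=
        Finset.filter_subset_filter _ hW2
      exact_mod_cast Finset.card_le_card this) (by
      intro x hx
      rw [hM, Finset.mem_image] at hx
      obtain ⟨k, hk, rfl⟩ := hx
      have hkW := hW2 hk
      have hki : k ∈ insert w0 W2 := Finset.mem_insert_of_mem hk
      obtain ⟨o1, o2, o3, o4, o5, o6, o7⟩ := hom k hkW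
      obtain ⟨p1, p2, p3, p4, p5, p6, p7⟩ := hom w0 hw0
      obtain ⟨d1, d2⟩ := hdiff k hk
      have hlowk := hAlow k hki
      have hkpos : (0 : ℝ) < (A' k).card := lt_of_lt_of_le (by positivity) hlowk
      have hne : (A' k).Nonempty := by
        rw [← Finset.card_pos]; exact_mod_cast hkpos
      have hmu := hMU (L : ℝ) (1800 * 102400 ^ 8 * 360 ^ 5 * C ^ 99 * Q * y ^ 175) (κ k * IR.om (w k) (X I)) (κ k * IR.om (w k) (X I')) (κ w0 * IR.om (w w0) (X I)) (κ w0 * IR.om (w w0) (X I')) (A' k) (A' w0)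
        (by exact_mod_cast hLn) o4 o5 o6 o7 p4 p5 p6 p7 hne d1 d2
      rw [BFI_q (κ k) (κ w0) _ _ _ _ o3 p3 o1 o2 p1 p2, (hq k hkW).2.2, hq03] at hmu
      rw [hcovG]
      have hk2 : C1 * (1800 * 102400 ^ 8 * 360 ^ 5 * C ^ 99 * Q * y ^ 175) ^ 2 ≤ (L : ℝ) ^ (1 / 1000 : ℝ) * (A' w0).card * (A' k).card := by
        have h40 : B2 ≤ y ^ 40 := le_trans (by linarith) (hyk 40 (by norm_num))
        calc C1 * (1800 * 102400 ^ 8 * 360 ^ 5 * C ^ 99 * Q * y ^ 175) ^ 2 = B2 * (Q ^ 2 * y ^ 350 / (72 ^ 2 * C ^ 6)) := by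
              rw [hB2]; field_simp
          _ ≤ y ^ 40 * (Q ^ 2 * y ^ 350 / (72 ^ 2 * C ^ 6)) := mul_le_mul_of_nonneg_right h40 (by positivity)
          _ = y ^ 400 * (Q / (72 * C ^ 3 * y ^ 5)) * (Q / (72 * C ^ 3 * y ^ 5)) := by
              field_simp
          _ ≤ (L : ℝ) ^ (1 / 1000 : ℝ) * (A' w0).card * (A' k).card := by
              apply mul_le_mul _ hlowk (by positivity) (by positivity)
              exact mul_le_mul hLpow hlow (by positivity) (by positivity)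
      have hfin := le_trans hmu hk2
      exact le_of_mul_le_mul_right hfin hkpos)
  -- the contradiction
  have hc1 : (W2.card : ℝ) ≤ C2 * y ^ 100 * (C * (Q / y ^ 400)) := by
    have he : C2 / Real.exp (-(m : ℝ)) = C2 * y ^ 100 := by
      rw [e5]; field_simp
    rw [he] at hF1
    refine le_trans hF1 ?_
    exact mul_le_mul_of_nonneg_left (le_trans hRes hLpow2) (by positivity)
  have hc2 : Q / (288 * 360 ^ 4 * 102400 ^ 4 * C ^ 54 * y ^ 198) < W2.card := by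
    refine lt_of_lt_of_le ?_ hcard
    calc Q / (288 * 360 ^ 4 * 102400 ^ 4 * C ^ 54 * y ^ 198) = (1 / y ^ 2 / C) ^ 2 * (1 / y) ^ 2 / 144 * ((1 / (360 ^ 2 * 102400 ^ 2 * C ^ 26 * y ^ 46)) ^ 2 / 2) * (Q / y ^ 100) := by
          field_simp
          norm_num
      _ < _ := mul_lt_mul_of_pos_left hlt (by positivity)
  have hc3 := lt_of_lt_of_le hc2 hc1
  have h102 : B4 ≤ y ^ 102 := le_trans (by linarith) (hyk 102 (by norm_num))
  apply absurd hc3
  rw [not_lt, ← mul_div_assoc, ← mul_div_assoc, div_le_div_iff₀ (by positivity) (by positivity)]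
  calc C2 * y ^ 100 * (C * Q) * (288 * 360 ^ 4 * 102400 ^ 4 * C ^ 54 * y ^ 198) = Q * y ^ 298 * B4 := by rw [hB4]; ring
    _ ≤ Q * y ^ 298 * y ^ 102 := mul_le_mul_of_nonneg_left h102 (by positivity)
    _ = Q * y ^ 400 := by ring

end

end Pool.Agent.HH
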